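import Pool.Agent.Helper35.EAM.Spec2

/-!
# FLIP: a general fact on fair coins
-/

set_option autoImplicit false

open MeasureTheory

namespace Pool.Agent.Helper44.EAM

open Pool.H47EA Pool.Agent.Helper35.EAM Pool.Agent.Helper35.EAM2

/-- fair coins -/
noncomputable def coins (E : Type) : Measure (E → Bool) :=
  Measure.infinitePi fun _ : E => (PMF.uniformOfFintype Bool).toMeasure

instance (E : Type) : IsProbabilityMeasure (coins E) := by
  unfold coins; infer_instance

theorem map_not : ((PMF.uniformOfFintype Bool).toMeasure).map (fun b : Bool => !b) =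
    (PMF.uniformOfFintype Bool).toMeasure := by
  classical
  have hm : Measurable (fun b : Bool => !b) := measurable_from_top
  ext s hs
  rw [Measure.map_apply hm hs, PMF.toMeasure_uniformOfFintype_apply _ (hm hs),
    PMF.toMeasure_uniformOfFintype_apply _ hs]
  congr 2
  exact Fintype.card_congr ⟨fun x => ⟨!x.1, x.2⟩, fun x => ⟨!x.1, by
    show (!(!x.1)) ∈ s
    rw [Bool.not_not]; exact x.2⟩, fun x => by simp, fun x => by simp⟩

theorem flip_preserving {E : Type} [DecidableEq E] (e : E) :
    MeasurePreserving (fun J : E → Bool => Function.update J e (!J e)) (coins E) (coins E) := by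
  have hfun : (fun J : E → Bool => Function.update J e (!J e)) =
      fun (J : E → Bool) (i : E) => (if i = e then (fun b : Bool => !b) else id) (J i) := by
    funext J i
    by_cases h : i = e
    · subst h
      simp
    · simp [h]
  have hm : ∀ i : E, Measurable ((if i = e then (fun b : Bool => !b) else id) : Bool → Bool) :=
    fun i => measurable_from_top
  refine ⟨?_, ?_⟩
  · rw [hfun]
    exact measurable_pi_lambda _ fun i => (hm i).comp (measurable_pi_apply i)
  · rw [hfun]
    unfold coins
    rw [Measure.infinitePi_map_pi _ hm]
    congr 1
    funext i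
    by_cases h : i = e
    · simp only [h, if_true]
      exact map_not
    · simp only [h, if_false, Measure.map_id]

theorem flip_thm : S_FLIP := by
  intro E Y _ _ _ v hv f hf hinv hflip
  show coins E {J | ∀ y, f y J = true} = (1 / 2 : ENNReal) ^ Fintype.card Y
  classical
  have hms : ∀ S : Finset Y, MeasurableSet {J | ∀ y ∈ S, f y J = true} := by
    intro S
    have : {J | ∀ y ∈ S, f y J = true} = ⋂ y ∈ S, (f y) ⁻¹' {true} := by
      ext J; simp
    rw [this]
    exact Finset.measurableSet_biInter _ fun y _ => hf y (measurableSet_singleton _)
  have key : ∀ S : Finset Y, coins E {J | ∀ y ∈ S, f y J = true} = (1 / 2 : ENNReal) ^ S.card := by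
    intro S
    induction S using Finset.induction_on with
    | empty => simp
    | insert y S hy ih =>
      set A : Set (E → Bool) := {J | ∀ y' ∈ S, f y' J = true} with hA
      have e1 : {J | ∀ y' ∈ insert y S, f y' J = true} = A ∩ (f y) ⁻¹' {true} := by
        ext J
        simp only [Set.mem_ofPred_eq, Finset.mem_insert, forall_eq_or_imp, hA, Set.mem_inter_iff,
          Set.mem_preimage, Set.mem_singleton_iff]
        tauto
      have hpre : (fun J : E → Bool => Function.update J (v y) (!J (v y))) ⁻¹'
          (A ∩ (f y) ⁻¹' {true}) = A ∩ (f y) ⁻¹' {false} := by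
        ext J
        simp only [Set.mem_preimage, Set.mem_inter_iff, Set.mem_singleton_iff, hA,
          Set.mem_ofPred_eq, hflip y J, Bool.not_eq_true']
        have : (∀ y' ∈ S, f y' (Function.update J (v y) (!J (v y))) = true) ↔
            ∀ y' ∈ S, f y' J = true := by
          refine forall₂_congr fun y' hy' => ?_
          rw [hinv y' y J (by rintro rfl; exact hy hy')]
        rw [this]
      have hAm : MeasurableSet A := hms S
      have h1 : coins E (A ∩ (f y) ⁻¹' {false}) = coins E (A ∩ (f y) ⁻¹' {true}) := by
        rw [← hpre]
        exact (flip_preserving (v y)).measure_preimage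
          (hAm.inter (hf y (measurableSet_singleton _))).nullMeasurableSet
      have h2 : coins E (A ∩ (f y) ⁻¹' {true}) + coins E (A ∩ (f y) ⁻¹' {false}) = coins E A := by
        rw [← measure_inter_add_sdiff A (hf y (measurableSet_singleton true))]
        congr 2
        ext J
        simp only [Set.mem_inter_iff, Set.mem_preimage, Set.mem_singleton_iff, Set.mem_sdiff,
          Bool.not_eq_true]
      rw [h1] at h2
      rw [e1, Finset.card_insert_of_notMem hy, pow_succ, ← ih, ← h2, ← two_mul]
      rw [mul_comm (2 : ENNReal), mul_assoc, one_div, ENNReal.mul_inv_cancel (by norm_num)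
        (by norm_num), mul_one]
  have := key Finset.univ
  simpa using this

end Pool.Agent.Helper44.EAM
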