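import Pool.Agent.Helper35.EAM.Spec2

/-!
# LISTB: closed causes
-/

set_option autoImplicit false

open MeasureTheory

namespace Pool.Agent.Helper44.EAM.LISTB

open Pool.H47EA Pool.Agent.Helper35.EAM Pool.Agent.Helper35.EAM2

theorem listb_thm (h : S_PJ) (h' : S_PU) : S_LISTB := by
  intro T hT0 hT1 p hp1 hp2 l hl
  classical
  let f1 : (ℤ × ℤ) × Fin 4 → (ℤ × ℤ) × KK := fun y => (y.1, Sum.inl y.2)
  let f2 : (ℤ × ℤ) × RE → (ℤ × ℤ) × KK := fun y => (y.1, Sum.inr y.2)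
  have hf1 : Function.Injective f1 := by
    rintro ⟨a, b⟩ ⟨a', b'⟩ h
    simp only [f1, Prod.mk.injEq, Sum.inl.injEq] at h
    rw [h.1, h.2]
  have hf2 : Function.Injective f2 := by
    rintro ⟨a, b⟩ ⟨a', b'⟩ h
    simp only [f2, Prod.mk.injEq, Sum.inr.injEq] at h
    rw [h.1, h.2]
  set Y1 : Finset ((ℤ × ℤ) × Fin 4) := l.toFinset.preimage f1 hf1.injOn with hY1
  set Y2 : Finset ((ℤ × ℤ) × RE) := l.toFinset.preimage f2 hf2.injOn with hY2
  have hunion : l.toFinset = Y1.image f1 ∪ Y2.image f2 := by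
    ext ⟨s, k⟩
    simp only [Finset.mem_union, Finset.mem_image, hY1, hY2, Finset.mem_preimage]
    constructor
    · intro hm
      cases k with
      | inl j => exact Or.inl ⟨(s, j), hm, rfl⟩
      | inr e => exact Or.inr ⟨(s, e), hm, rfl⟩
    · rintro (⟨y, hy, he⟩ | ⟨y, hy, he⟩)
      · rw [he] at hy; exact hy
      · rw [he] at hy; exact hy
  have hdis : Disjoint (Y1.image f1) (Y2.image f2) := by
    rw [Finset.disjoint_left]
    intro a ha hb
    obtain ⟨y, -, hy⟩ := Finset.mem_image.mp ha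
    obtain ⟨z, -, hz⟩ := Finset.mem_image.mp hb
    rw [← hz] at hy
    simp only [f1, f2, Prod.mk.injEq, reduceCtorEq, and_false] at hy
  have hlen : l.length = Y1.card + Y2.card := by
    rw [← List.toFinset_card_of_nodup hl, hunion, Finset.card_union_of_disjoint hdis,
      Finset.card_image_of_injective _ hf1, Finset.card_image_of_injective _ hf2]
  have hsub : {x : Coupling 3 × Coupling 3 | ∀ s ∈ l, cl x s.1 s.2} ⊆
      {J : Coupling 3 | ∀ y ∈ Y1, ∀ q, q < 60 → prodJ J y.1 y.2 q ≠ 1} ×ˢ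
        {U : Coupling 3 | ∀ y ∈ Y2, Jc U (ce1 y.1 y.2) (ce2 y.1 y.2) ≠ 1} := by
    rintro ⟨J, U⟩ hx
    refine ⟨?_, ?_⟩
    · intro y hy
      have hm : f1 y ∈ l := by
        rw [hY1, Finset.mem_preimage, List.mem_toFinset] at hy
        exact hy
      exact hx (f1 y) hm
    · intro y hy
      have hm : f2 y ∈ l := by
        rw [hY2, Finset.mem_preimage, List.mem_toFinset] at hy
        exact hy
      exact hx (f2 y) hm
  calc ((couplingLaw 3).prod (percLaw 3 T)) {x | ∀ s ∈ l, cl x s.1 s.2}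
      ≤ ((couplingLaw 3).prod (percLaw 3 T))
        ({J : Coupling 3 | ∀ y ∈ Y1, ∀ q, q < 60 → prodJ J y.1 y.2 q ≠ 1} ×ˢ
        {U : Coupling 3 | ∀ y ∈ Y2, Jc U (ce1 y.1 y.2) (ce2 y.1 y.2) ≠ 1}) := measure_mono hsub
    _ = couplingLaw 3 {J : Coupling 3 | ∀ y ∈ Y1, ∀ q, q < 60 → prodJ J y.1 y.2 q ≠ 1} *
        percLaw 3 T {U : Coupling 3 | ∀ y ∈ Y2, Jc U (ce1 y.1 y.2) (ce2 y.1 y.2) ≠ 1} :=
        Measure.prod_prod _ _
    _ ≤ ((1 / 2 : ENNReal) ^ 60) ^ Y1.card * (ENNReal.ofReal (1 - T)) ^ Y2.card :=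
        mul_le_mul' (h Y1) (h' T hT0 hT1 Y2)
    _ ≤ p ^ Y1.card * p ^ Y2.card :=
        mul_le_mul' (pow_le_pow_left' hp1 _) (pow_le_pow_left' hp2 _)
    _ = p ^ l.length := by rw [hlen, pow_add]

end Pool.Agent.Helper44.EAM.LISTB
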