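import Pool.Agent.Helper35.EAM.Spec2

/-!
# NUM: numerics
-/

set_option autoImplicit false

open MeasureTheory

namespace Pool.Agent.Helper44.EAM

open Pool.H47EA Pool.Agent.Helper35.EAM Pool.Agent.Helper35.EAM2

theorem card_KK : Fintype.card KK = 119564 := by
  simp [KK, RE]

theorem tanh_bound (β : ℝ) (h : 21 ≤ β) : 1 - Real.tanh β ≤ 1 / 717384 ^ 3 := by
  have hc : 0 < Real.cosh β := Real.cosh_pos β
  have e1 : 1 - Real.tanh β = Real.exp (-β) / Real.cosh β := by
    rw [Real.tanh_eq_sinh_div_cosh, ← Real.cosh_sub_sinh]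
    field_simp
  have e2 : Real.exp β / 2 ≤ Real.cosh β := by
    rw [Real.cosh_eq]
    have := Real.exp_pos (-β)
    linarith
  have e3 : (717384 : ℝ) ^ 3 * 2 ≤ Real.exp β * Real.exp β := by
    have a1 : Real.exp 21 ≤ Real.exp β := Real.exp_le_exp.mpr h
    have a2 : (2.718 : ℝ) ^ 21 ≤ Real.exp 21 := by
      have : Real.exp 21 = Real.exp 1 ^ 21 := by
        rw [← Real.exp_nat_mul]; norm_num
      rw [this]
      have := Real.exp_one_gt_d9
      exact pow_le_pow_left₀ (by norm_num) (by linarith) 21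
    have a3 : (717384 : ℝ) ^ 3 * 2 ≤ (2.718 : ℝ) ^ 21 * (2.718 : ℝ) ^ 21 := by norm_num
    have a4 : (2.718 : ℝ) ^ 21 ≤ Real.exp β := a2.trans a1
    exact a3.trans (mul_le_mul a4 a4 (by positivity) (Real.exp_pos β).le)
  rw [e1, div_le_div_iff₀ hc (by positivity), one_mul]
  have e4 : Real.exp (-β) * Real.exp β = 1 := by rw [← Real.exp_add]; simp
  have e5 : Real.exp (-β) * 717384 ^ 3 * 2 ≤ Real.exp β := by
    have := mul_le_mul_of_nonneg_left e3 (Real.exp_pos (-β)).le
    calc Real.exp (-β) * 717384 ^ 3 * 2 = Real.exp (-β) * (717384 ^ 3 * 2) := by ring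
      _ ≤ Real.exp (-β) * (Real.exp β * Real.exp β) := this
      _ = Real.exp β := by rw [← mul_assoc, e4, one_mul]
  linarith

theorem num_thm : S_NUM := by
  have key : ∀ x : ℝ, 0 ≤ x → ENNReal.ofReal x ^ 3 = ENNReal.ofReal (x ^ 3) := by
    intro x hx
    rw [ENNReal.ofReal_pow hx]
  refine ⟨ENNReal.ofReal (1 / 717384 ^ 3), ENNReal.ofReal (1 / 717384), ?_, ?_, ?_, ?_, ?_⟩
  · rw [key _ (by norm_num)]
    apply le_of_eq
    congr 1
    norm_num
  · rw [card_KK]
    have e : (3 : ENNReal) * ((119564 : ℕ) : ENNReal) * ENNReal.ofReal (1 / 717384) =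
        ENNReal.ofReal (3 * 119564 * (1 / 717384)) := by
      rw [ENNReal.ofReal_mul (by norm_num), ENNReal.ofReal_mul (by norm_num)]
      norm_num
    rw [e]
    have : (2⁻¹ : ENNReal) = ENNReal.ofReal (1 / 2) := by
      rw [ENNReal.ofReal_div_of_pos (by norm_num)]
      norm_num
    rw [this]
    apply ENNReal.ofReal_le_ofReal
    norm_num
  · have e : (2 : ENNReal) * ENNReal.ofReal (1 / 717384) ^ 2 =
        ENNReal.ofReal (2 * (1 / 717384) ^ 2) := by
      rw [ENNReal.ofReal_mul (by norm_num), ENNReal.ofReal_pow (by norm_num)]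
      norm_num
    rw [e]
    have : (1 / 2 : ENNReal) = ENNReal.ofReal (1 / 2) := by
      rw [ENNReal.ofReal_div_of_pos (by norm_num)]
      norm_num
    rw [this]
    apply ENNReal.ofReal_le_ofReal
    norm_num
  · have : (1 / 2 : ENNReal) = ENNReal.ofReal (1 / 2) := by
      rw [ENNReal.ofReal_div_of_pos (by norm_num)]
      norm_num
    rw [this, ← ENNReal.ofReal_pow (by norm_num)]
    apply ENNReal.ofReal_le_ofReal
    norm_num
  · intro β hβ
    exact ENNReal.ofReal_le_ofReal (tanh_bound β hβ)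

end Pool.Agent.Helper44.EAM
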