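import Pool.Agent.Helper35.EAM.Spec2

/-!
# PJ: sides which are not fine
-/

set_option autoImplicit false

open MeasureTheory

namespace Pool.Agent.Helper44.EAM.PJ

open Pool.H47EA Pool.Agent.Helper35.EAM Pool.Agent.Helper35.EAM2

theorem dist_loc (s : ℤ × ℤ) (j : Fin 4) (p p' : ℤ × ℤ) :
    dist1 (loc s j p) (loc s j p') = (p.1 - p'.1).natAbs + (p.2 - p'.2).natAbs := by
  fin_cases j <;> simp [loc, dist1, Fin.sum_univ_three] <;> omega

/-- local description of the steps of a path -/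
theorem steps (q k : ℕ) (hq : q < 60) (hk : k < 246) :
    (k ≠ 4 * q + 3 ∧ ∃ i : ℤ, 0 ≤ i ∧ i < 244 ∧ lp q k = (i, 0) ∧ lp q (k + 1) = (i + 1, 0)) ∨
    (k = 4 * q + 3 ∧ lp q k = (4 * (q : ℤ) + 3, 0) ∧ lp q (k + 1) = (4 * (q : ℤ) + 3, 1)) ∨
    (k ≠ 4 * q + 3 ∧ ∃ i : ℤ, 3 ≤ i ∧ i < 241 ∧ lp q k = (i, 1) ∧ lp q (k + 1) = (i + 1, 1)) ∨
    (k ≠ 4 * q + 3 ∧ lp q k = (4 * (q : ℤ) + 5, 1) ∧ lp q (k + 1) = (4 * (q : ℤ) + 5, 0)) := by
  by_cases h1 : k ≤ 4 * q + 2
  · left
    refine ⟨by omega, (k : ℤ), by omega, by omega, ?_, ?_⟩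
    · unfold Pool.Agent.Helper35.EAM2.lp
      rw [if_pos (by omega)]
    · unfold Pool.Agent.Helper35.EAM2.lp
      rw [if_pos (by omega)]
      push_cast
      rfl
  by_cases h2 : k = 4 * q + 3
  · right; left
    refine ⟨h2, ?_, ?_⟩
    · unfold Pool.Agent.Helper35.EAM2.lp
      rw [if_pos (by omega), h2]
      push_cast
      rfl
    · unfold Pool.Agent.Helper35.EAM2.lp
      rw [if_neg (by omega), if_pos (by omega)]
  by_cases h3 : k = 4 * q + 4
  · right; right; left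
    refine ⟨by omega, 4 * (q : ℤ) + 3, by omega, by omega, ?_, ?_⟩
    · unfold Pool.Agent.Helper35.EAM2.lp
      rw [if_neg (by omega), if_pos h3]
    · unfold Pool.Agent.Helper35.EAM2.lp
      rw [if_neg (by omega), if_neg (by omega), if_pos (by omega)]
      ext <;> simp
      ring
  by_cases h4 : k = 4 * q + 5
  · right; right; left
    refine ⟨by omega, 4 * (q : ℤ) + 4, by omega, by omega, ?_, ?_⟩
    · unfold Pool.Agent.Helper35.EAM2.lp
      rw [if_neg (by omega), if_neg (by omega), if_pos h4]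
    · unfold Pool.Agent.Helper35.EAM2.lp
      rw [if_neg (by omega), if_neg (by omega), if_neg (by omega), if_pos (by omega)]
      ext <;> simp
      ring
  by_cases h5 : k = 4 * q + 6
  · right; right; right
    refine ⟨by omega, ?_, ?_⟩
    · unfold Pool.Agent.Helper35.EAM2.lp
      rw [if_neg (by omega), if_neg (by omega), if_neg (by omega), if_pos h5]
    · unfold Pool.Agent.Helper35.EAM2.lp
      rw [if_neg (by omega), if_neg (by omega), if_neg (by omega), if_neg (by omega), h5]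
      ext <;> simp
      ring
  · left
    refine ⟨by omega, (k : ℤ) - 2, by omega, by omega, ?_, ?_⟩
    · unfold Pool.Agent.Helper35.EAM2.lp
      rw [if_neg (by omega), if_neg (by omega), if_neg (by omega), if_neg (by omega)]
    · unfold Pool.Agent.Helper35.EAM2.lp
      rw [if_neg (by omega), if_neg (by omega), if_neg (by omega), if_neg (by omega)]
      ext <;> simp
      ring

theorem adj_P (s : ℤ × ℤ) (j : Fin 4) (q k : ℕ) (hq : q < 60) (hk : k < 246) :
    (lat 3).Adj (P s j q k) (P s j q (k + 1)) := by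
  show dist1 (P s j q k) (P s j q (k + 1)) = 1
  unfold P
  rw [dist_loc]
  rcases steps q k hq hk with ⟨-, i, -, -, h1, h2⟩ | ⟨-, h1, h2⟩ | ⟨-, i, -, -, h1, h2⟩ |
    ⟨-, h1, h2⟩ <;> rw [h1, h2] <;> simp

theorem adj_pe (s : ℤ × ℤ) (j : Fin 4) (q : ℕ) :
    (lat 3).Adj (loc s j (4 * (q : ℤ) + 3, 0)) (loc s j (4 * (q : ℤ) + 3, 1)) := by
  show dist1 _ _ = 1
  rw [dist_loc]
  simp

/-- private edge -/
def pe (z : ((ℤ × ℤ) × Fin 4) × ℕ) : (lat 3).edgeSet :=
  ⟨s(loc z.1.1 z.1.2 (4 * (z.2 : ℤ) + 3, 0), loc z.1.1 z.1.2 (4 * (z.2 : ℤ) + 3, 1)),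
    adj_pe z.1.1 z.1.2 z.2⟩

theorem loc_eq_aux (s s' : ℤ × ℤ) (j j' : Fin 4) (p p' r r' : ℤ × ℤ)
    (h : s(loc s' j' p, loc s' j' p') = s(loc s j r, loc s j r')) :
    (loc s' j' p 0 = loc s j r 0 ∧ loc s' j' p 1 = loc s j r 1 ∧
      loc s' j' p' 0 = loc s j r' 0 ∧ loc s' j' p' 1 = loc s j r' 1) ∨
    (loc s' j' p 0 = loc s j r' 0 ∧ loc s' j' p 1 = loc s j r' 1 ∧
      loc s' j' p' 0 = loc s j r 0 ∧ loc s' j' p' 1 = loc s j r 1) := by
  rw [Sym2.eq_iff] at h
  rcases h with ⟨h1, h2⟩ | ⟨h1, h2⟩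
  · left
    exact ⟨congrFun h1 0, congrFun h1 1, congrFun h2 0, congrFun h2 1⟩
  · right
    exact ⟨congrFun h1 0, congrFun h1 1, congrFun h2 0, congrFun h2 1⟩

theorem key (s s' : ℤ × ℤ) (j j' : Fin 4) (q q' k : ℕ) (hq : q < 60) (hq' : q' < 60)
    (hk : k < 246)
    (h : s(P s' j' q' k, P s' j' q' (k + 1)) =
      s(loc s j (4 * (q : ℤ) + 3, 0), loc s j (4 * (q : ℤ) + 3, 1))) :
    s' = s ∧ j' = j ∧ q' = q ∧ k = 4 * q + 3 := by
  obtain ⟨a, b⟩ := s
  obtain ⟨a', b'⟩ := s'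
  unfold P at h
  have h' := loc_eq_aux _ _ _ _ _ _ _ _ h
  clear h
  rcases steps q' k hq' hk with ⟨hk', i, hi0, hi1, h1, h2⟩ | ⟨hk', h1, h2⟩ |
    ⟨hk', i, hi0, hi1, h1, h2⟩ | ⟨hk', h1, h2⟩
  · exfalso
    rw [h1, h2] at h'
    rcases h' with ⟨x1, y1, x2, y2⟩ | ⟨x1, y1, x2, y2⟩ <;>
      fin_cases j <;> fin_cases j' <;> simp [loc] at x1 y1 x2 y2 <;> omega
  · rw [h1, h2] at h'
    have hall : a' = a ∧ b' = b ∧ j' = j ∧ q' = q := by
      rcases h' with ⟨x1, y1, x2, y2⟩ | ⟨x1, y1, x2, y2⟩ <;>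
        fin_cases j <;> fin_cases j' <;> simp [loc] at x1 y1 x2 y2 ⊢ <;> omega
    obtain ⟨rfl, rfl, rfl, rfl⟩ := hall
    exact ⟨rfl, rfl, rfl, hk'⟩
  · exfalso
    rw [h1, h2] at h'
    rcases h' with ⟨x1, y1, x2, y2⟩ | ⟨x1, y1, x2, y2⟩ <;>
      fin_cases j <;> fin_cases j' <;> simp [loc] at x1 y1 x2 y2 <;> omega
  · exfalso
    rw [h1, h2] at h'
    rcases h' with ⟨x1, y1, x2, y2⟩ | ⟨x1, y1, x2, y2⟩ <;>
      fin_cases j <;> fin_cases j' <;> simp [loc] at x1 y1 x2 y2 <;> omega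

theorem P_private (s : ℤ × ℤ) (j : Fin 4) (q : ℕ) :
    P s j q (4 * q + 3) = loc s j (4 * (q : ℤ) + 3, 0) ∧
      P s j q (4 * q + 3 + 1) = loc s j (4 * (q : ℤ) + 3, 1) := by
  unfold P Pool.Agent.Helper35.EAM2.lp
  refine ⟨?_, ?_⟩
  · rw [if_pos (by omega)]
    push_cast
    rfl
  · rw [if_neg (by omega), if_pos (by omega)]

theorem pe_inj {z z' : ((ℤ × ℤ) × Fin 4) × ℕ} (hz : z.2 < 60) (hz' : z'.2 < 60)
    (h : pe z = pe z') : z = z' := by
  obtain ⟨⟨s, j⟩, q⟩ := z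
  obtain ⟨⟨s', j'⟩, q'⟩ := z'
  have h1 := congrArg Subtype.val h
  have hp := P_private s j q
  have h2 : s(P s j q (4 * q + 3), P s j q (4 * q + 3 + 1)) =
      s(loc s' j' (4 * (q' : ℤ) + 3, 0), loc s' j' (4 * (q' : ℤ) + 3, 1)) := by
    rw [hp.1, hp.2]
    exact h1
  simp only at hz hz'
  obtain ⟨rfl, rfl, rfl, -⟩ := key s' s j' j q' q (4 * q + 3) hz' hz (by omega) h2
  rfl

theorem sg_not (b : Bool) : sg (!b) = -sg b := by
  cases b <;> simp [sg]

open Classical in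
theorem Jc_update (J : Coupling 3) (e : (lat 3).edgeSet) (x y : Site 3) (h : (lat 3).Adj x y) :
    Jc (Function.update J e (!J e)) x y = (if s(x, y) = e.1 then -1 else 1) * Jc J x y := by
  unfold Jc
  rw [dif_pos h, dif_pos h]
  by_cases he : s(x, y) = e.1
  · have he' : (⟨s(x, y), h⟩ : (lat 3).edgeSet) = e := Subtype.ext he
    rw [he', Function.update_self, if_pos he, sg_not]
    ring
  · have he' : (⟨s(x, y), h⟩ : (lat 3).edgeSet) ≠ e := fun h' => he (congrArg Subtype.val h')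
    rw [Function.update_of_ne he', if_neg he, one_mul]

open Classical in
theorem prodJ_update (J : Coupling 3) (z : ((ℤ × ℤ) × Fin 4) × ℕ) (hz : z.2 < 60) (s : ℤ × ℤ)
    (j : Fin 4) (q : ℕ) (hq : q < 60) :
    prodJ (Function.update J (pe z) (!J (pe z))) s j q =
      (if z = ((s, j), q) then -1 else 1) * prodJ J s j q := by
  unfold prodJ
  have e1 : ∀ k ∈ Finset.range 246,
      Jc (Function.update J (pe z) (!J (pe z))) (P s j q k) (P s j q (k + 1)) =
      (if s(P s j q k, P s j q (k + 1)) = (pe z).1 then -1 else 1) *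
        Jc J (P s j q k) (P s j q (k + 1)) := by
    intro k hk
    exact Jc_update J _ _ _ (adj_P s j q k hq (Finset.mem_range.mp hk))
  rw [Finset.prod_congr rfl e1, Finset.prod_mul_distrib]
  congr 1
  by_cases h : z = ((s, j), q)
  · rw [if_pos h]
    subst h
    have e2 : ∀ k ∈ Finset.range 246,
        (if s(P s j q k, P s j q (k + 1)) = (pe ((s, j), q)).1 then (-1 : ℝ) else 1) =
        if k = 4 * q + 3 then -1 else 1 := by
      intro k hk
      congr 1
      apply propext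
      constructor
      · intro h
        exact (key s s j j q q k hq hq (Finset.mem_range.mp hk) h).2.2.2
      · rintro rfl
        have := P_private s j q
        rw [this.1, this.2]
        rfl
    rw [Finset.prod_congr rfl e2, Finset.prod_ite_eq' (Finset.range 246) (4 * q + 3) (fun _ => (-1 : ℝ))]
    rw [if_pos (Finset.mem_range.mpr (by omega))]
  · rw [if_neg h]
    apply Finset.prod_eq_one
    intro k hk
    rw [if_neg]
    intro h'
    obtain ⟨⟨s', j'⟩, q'⟩ := z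
    obtain ⟨rfl, rfl, rfl, -⟩ := key s' s j' j q' q k hz hq (Finset.mem_range.mp hk) h'
    exact h rfl

theorem prodJ_sign (J : Coupling 3) (s : ℤ × ℤ) (j : Fin 4) (q : ℕ) (hq : q < 60) :
    prodJ J s j q = 1 ∨ prodJ J s j q = -1 := by
  have hJ : ∀ k ∈ Finset.range 246, Jc J (P s j q k) (P s j q (k + 1)) = 1 ∨
      Jc J (P s j q k) (P s j q (k + 1)) = -1 := by
    intro k hk
    unfold Jc
    rw [dif_pos (adj_P s j q k hq (Finset.mem_range.mp hk))]
    cases J _
    · right; simp [sg]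
    · left; simp [sg]
  unfold prodJ
  refine Finset.prod_induction (fun k => Jc J (P s j q k) (P s j q (k + 1)))
    (fun x => x = 1 ∨ x = -1) ?_ (Or.inl rfl) hJ
  rintro a b (ha | ha) (hb | hb) <;> rw [ha, hb] <;> norm_num

theorem measurable_prodJ (s : ℤ × ℤ) (j : Fin 4) (q : ℕ) :
    Measurable fun J : Coupling 3 => prodJ J s j q := by
  unfold prodJ
  refine Finset.measurable_prod _ fun k _ => ?_
  unfold Jc
  split_ifs with h
  · have h1 : Measurable sg := measurable_from_top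
    exact h1.comp (measurable_pi_apply _)
  · exact measurable_const

theorem pj_thm (hF : S_FLIP) : S_PJ := by
  intro Y
  classical
  have hc : Countable (lat 3).edgeSet := by
    have : Countable (Sym2 (Site 3)) := Quot.mk_surjective.countable
    infer_instance
  let ZT : Type := {y // y ∈ Y} × Fin 60
  let v : ZT → (lat 3).edgeSet := fun z => pe (z.1.1, z.2.val)
  let f : ZT → Coupling 3 → Bool := fun z J => decide (prodJ J z.1.1.1 z.1.1.2 z.2.val ≠ 1)
  have hv : Function.Injective v := by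
    rintro ⟨⟨y, hy⟩, q⟩ ⟨⟨y', hy'⟩, q'⟩ h
    have h1 := pe_inj (z := (y, q.val)) (z' := (y', q'.val)) q.isLt q'.isLt h
    have h2 : y = y' := congrArg Prod.fst h1
    have h3 : q.val = q'.val := congrArg Prod.snd h1
    subst h2
    have h4 : q = q' := Fin.ext h3
    subst h4
    rfl
  have h := hF (lat 3).edgeSet ZT v hv f ?_ ?_ ?_
  · have hset : {J : Coupling 3 | ∀ y ∈ Y, ∀ q, q < 60 → prodJ J y.1 y.2 q ≠ 1} =
        {J | ∀ z, f z J = true} := by
      ext J
      constructor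
      · intro h z
        exact decide_eq_true (h z.1.1 z.1.2 z.2.val z.2.isLt)
      · intro h y hy q hq
        exact of_decide_eq_true (h (⟨y, hy⟩, ⟨q, hq⟩))
    rw [hset]
    show (Measure.infinitePi fun _ => (PMF.uniformOfFintype Bool).toMeasure) _ ≤ _
    rw [h]
    have hcard : Fintype.card ZT = 60 * Y.card := by
      simp only [ZT, Fintype.card_prod, Fintype.card_coe, Fintype.card_fin]
      ring
    rw [hcard, pow_mul]
  · rintro ⟨⟨y, hy⟩, q⟩
    apply measurable_to_bool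
    have : (f (⟨y, hy⟩, q)) ⁻¹' {true} = (fun J : Coupling 3 => prodJ J y.1 y.2 q.val) ⁻¹' {1}ᶜ := by
      ext J
      simp [f]
    rw [this]
    exact measurable_prodJ _ _ _ (measurableSet_singleton _).compl
  · rintro ⟨⟨y, hy⟩, q⟩ ⟨⟨y', hy'⟩, q'⟩ J hne
    have hne' : ((y', q'.val) : ((ℤ × ℤ) × Fin 4) × ℕ) ≠ ((y.1, y.2), q.val) := by
      intro h
      apply hne
      have h2 : y' = y := congrArg Prod.fst h
      have h3 : q'.val = q.val := congrArg Prod.snd h
      subst h2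
      have h4 : q' = q := Fin.ext h3
      subst h4
      rfl
    have e := prodJ_update J (y', q'.val) q'.isLt y.1 y.2 q.val q.isLt
    rw [if_neg hne', one_mul] at e
    show decide (prodJ (Function.update J (pe (y', q'.val)) (!J (pe (y', q'.val)))) y.1 y.2 q.val ≠ 1)
      = decide (prodJ J y.1 y.2 q.val ≠ 1)
    rw [e]
  · rintro ⟨⟨y, hy⟩, q⟩ J
    have e := prodJ_update J (y, q.val) q.isLt y.1 y.2 q.val q.isLt
    rw [if_pos rfl] at e
    show decide (prodJ (Function.update J (pe (y, q.val)) (!J (pe (y, q.val)))) y.1 y.2 q.val ≠ 1)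
      = !decide (prodJ J y.1 y.2 q.val ≠ 1)
    rw [e]
    rcases prodJ_sign J y.1 y.2 q.val q.isLt with h | h <;> rw [h] <;> norm_num

end Pool.Agent.Helper44.EAM.PJ
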