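import Pool.Agent.Helper35.EAM.Spec2

/-!
# PU: closed edges
-/

set_option autoImplicit false

open MeasureTheory

namespace Pool.Agent.Helper44.EAM

open Pool.H47EA Pool.Agent.Helper35.EAM Pool.Agent.Helper35.EAM2

theorem ce_adj (s : ℤ × ℤ) (e : RE) : (lat 3).Adj (ce1 s e) (ce2 s e) := by
  show dist1 (ce1 s e) (ce2 s e) = 1
  obtain ⟨b, i, h⟩ := e
  cases b
  · simp [ce1, ce2, dist1, Fin.sum_univ_three]
  · simp [ce1, ce2, dist1, Fin.sum_univ_three]

/-- the edge of a cell -/
def edge (y : (ℤ × ℤ) × RE) : (lat 3).edgeSet := ⟨s(ce1 y.1 y.2, ce2 y.1 y.2), ce_adj y.1 y.2⟩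

theorem edge_inj : Function.Injective edge := by
  rintro ⟨⟨a, b⟩, ⟨t, i, h⟩⟩ ⟨⟨a', b'⟩, ⟨t', i', h'⟩⟩ heq
  have h1 : s(ce1 (a, b) (t, i, h), ce2 (a, b) (t, i, h)) =
      s(ce1 (a', b') (t', i', h'), ce2 (a', b') (t', i', h')) := congrArg Subtype.val heq
  have hi := i.isLt
  have hh := h.isLt
  have hi' := i'.isLt
  have hh' := h'.isLt
  rw [Sym2.eq_iff] at h1
  have key : t = t' ∧ a = a' ∧ b = b' ∧ i.val = i'.val ∧ h.val = h'.val := by
    rcases h1 with ⟨e1, e2⟩ | ⟨e1, e2⟩
    · have x1 := congrFun e1 0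
      have y1 := congrFun e1 1
      have x2 := congrFun e2 0
      have y2 := congrFun e2 1
      cases t <;> cases t' <;> simp [ce1, ce2] at x1 y1 x2 y2 ⊢ <;> omega
    · have x1 := congrFun e1 0
      have y1 := congrFun e1 1
      have x2 := congrFun e2 0
      have y2 := congrFun e2 1
      cases t <;> cases t' <;> simp [ce1, ce2] at x1 y1 x2 y2 ⊢ <;> omega
  obtain ⟨rfl, rfl, rfl, k1, k2⟩ := key
  have k1' : i = i' := Fin.ext k1
  have k2' : h = h' := Fin.ext k2
  subst k1' k2'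
  rfl

theorem pu_thm : S_PU := by
  intro T hT0 hT1 Y
  classical
  have hset : {U : Coupling 3 | ∀ y ∈ Y, Jc U (ce1 y.1 y.2) (ce2 y.1 y.2) ≠ 1} =
      Set.pi (Y.image edge : Finset (lat 3).edgeSet) (fun _ => {false}) := by
    ext U
    simp only [Set.mem_ofPred_eq, Set.mem_pi, Finset.coe_image, Set.mem_image, Finset.mem_coe,
      forall_exists_index, and_imp, forall_apply_eq_imp_iff₂, Set.mem_singleton_iff]
    refine forall₂_congr fun y hy => ?_
    have hJ : Jc U (ce1 y.1 y.2) (ce2 y.1 y.2) = sg (U (edge y)) := by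
      unfold Jc
      rw [dif_pos (ce_adj y.1 y.2)]
      rfl
    rw [hJ]
    cases U (edge y)
    · simp only [sg]
      norm_num
    · simp [sg]
  rw [hset]
  unfold percLaw
  rw [Measure.infinitePi_pi _ (fun _ _ => measurableSet_singleton _)]
  rw [Finset.prod_const, Finset.card_image_of_injective _ edge_inj]
  refine le_of_eq ?_
  congr 1
  rw [ProbabilityTheory.bernoulliMeasure_def]
  simp only [Measure.coe_add, Measure.coe_nnreal_smul_apply, Pi.add_apply,
    Measure.dirac_apply' _ (measurableSet_singleton false)]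
  simp only [Set.indicator, Set.mem_singleton_iff]
  have hp : (Set.projIcc (0 : ℝ) 1 zero_le_one T : ℝ) = T := by
    rw [Set.coe_projIcc]
    simp [hT0, hT1]
  simp
  rw [ENNReal.ofReal, ENNReal.coe_inj]
  ext
  simp [Real.coe_toNNReal _ (by linarith : (0 : ℝ) ≤ 1 - T), unitInterval.coe_toNNReal]
  rw [Set.coe_projIcc, min_eq_right (by linarith), max_eq_right (by linarith)]

end Pool.Agent.Helper44.EAM
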